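import Pool.Agent.Lib.MP_5afa16_lc.GapSeaFinal

namespace Pool.Agent.Results.MP_5afa16_lc.CountingThreeHalves

/-- Every context-free language is a projection of size `exp (O (log^(3/2) n))` of the
non-singularity of integer matrices. -/
theorem result {T : Type} (L : Language T) (hL : L.IsContextFree) :
    ∃ (C : ℝ) (n₀ : ℕ), ∀ n ≥ n₀, ∃ (s : ℕ) (k : Fin s → Fin s → Fin n)
      (ψ : Fin s → Fin s → T → ℤ),
      Real.log s ≤ C * Real.log n ^ (3 / 2 : ℝ) ∧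
      (∀ i j a, |ψ i j a| ≤ 1) ∧
      ∀ w : Fin n → T, 0 ≤ (Matrix.of fun i j => ψ i j (w (k i j))).det ∧
        ((Matrix.of fun i j => ψ i j (w (k i j))).det ≠ 0 ↔ List.ofFn w ∈ L) := by
  obtain ⟨n₀, h⟩ := Pool.Agent.Lib.MP_5afa16_lc.Gap.real_bound2 hL
  refine ⟨92000, n₀, fun n hn => ?_⟩
  obtain ⟨s, a, k, ψ, b⟩ := h n hn
  exact ⟨s, k, ψ, a, b⟩

end Pool.Agent.Results.MP_5afa16_lc.CountingThreeHalves
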