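import Pool.Agent.Lib.MP_5afa16_lc.DcFinal

namespace Pool.Agent.Results.MP_5afa16_lc.DcflSpace

open Pool.Agent.Lib.MP_5afa16_lc

/-- Every deterministic context-free language is accepted by a nondeterministic Turing machine
that uses `O(log^(3/2) n)` cells of its work tape in all its computations. -/
theorem result {A Q G : Type} [Finite A] [Finite Q] [Finite G] (M : DPDA A Q G) :
    ∃ Q' W : Type, Finite Q' ∧ Finite W ∧ ∃ (N : NTM A Q' W) (C : ℝ), ∀ w : List A,
      (N.Accepts w ↔ M.Accepts w) ∧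
      ∀ c, N.Reach w c → (c.head : ℝ) + 1 ≤ C * Real.log (w.length + 2) ^ (3 / 2 : ℝ) := by
  obtain ⟨Q', W, a, b, N, C, h⟩ := Dc.dcfl_space M
  refine ⟨Q', W, a, b, N, 8 * (C + 1), fun w => ⟨(h w).1, fun c r => ?_⟩⟩
  have h1 := (h w).2 c r
  have h2 : 1 ≤ Nat.log 2 (w.length + 2) := Nat.log_pos (by omega) (by omega)
  have h3 : (Nat.log 2 (w.length + 2) : ℝ) * Real.log 2 ≤ Real.log (w.length + 2) := by
    rw [← Real.log_pow]
    exact Real.log_le_log (by positivity)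
      (by exact_mod_cast Nat.pow_log_le_self 2 (show w.length + 2 ≠ 0 by omega))
  generalize Nat.log 2 (w.length + 2) = l at h1 h2 h3
  generalize Real.log (w.length + 2) = x at h3
  have h4 := Real.log_two_gt_d9
  have h5 : (1 : ℝ) ≤ l := by exact_mod_cast h2
  have h6 : (l : ℝ) + 1 ≤ 4 * x := by nlinarith
  have h7 : 0 ≤ x := by linarith
  have h8 : (x ^ (3 / 2 : ℝ)) ^ 2 = x ^ 3 := by
    rw [← Real.rpow_natCast, ← Real.rpow_mul h7, ← Real.rpow_natCast]
    norm_num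
  have h9 : ((c.head : ℝ) + 1) ^ 2 ≤ C * ((l : ℝ) + 1) ^ 3 := by exact_mod_cast h1
  have h10 : ((l : ℝ) + 1) ^ 3 ≤ (4 * x) ^ 3 := pow_le_pow_left₀ (by linarith) h6 3
  have h11 : (0 : ℝ) ≤ C := by positivity
  refine le_of_sq_le_sq ?_ (by positivity)
  rw [mul_pow, h8]
  have h12 : 0 ≤ x ^ 3 := by positivity
  nlinarith [mul_le_mul_of_nonneg_left h10 h11, mul_nonneg (mul_nonneg h11 h11) h12,
    mul_nonneg h11 h12]

end Pool.Agent.Results.MP_5afa16_lc.DcflSpace
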