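import Pool.Agent.Lib.MP_5afa16_lc.Main

namespace Pool.Agent.Results.MP_5afa16_lc.MonotoneSeparation

/-- There is a context-free language over `{0,1}`, closed under changing zeros to ones, whose
slices of length `M` need monotone nondeterministic branching programs (directed networks whose
edges carry a positive variable or the constant one) with `M ^ (c log M)` nodes. -/
theorem result :
    ∃ L : Language Bool, L.IsContextFree ∧
      (∀ w w' : List Bool, List.Forall₂ (· ≤ ·) w w' → w ∈ L → w' ∈ L) ∧
      ∃ c : ℝ, 0 < c ∧ ∃ M₀ : ℕ, ∀ M : ℕ, M₀ ≤ M →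
        ∀ (s : ℕ) (E : Set (Fin s × Fin s × Option (Fin M))) (a b : Fin s),
          (∀ x : Fin M → Bool, List.ofFn x ∈ L ↔
            Relation.ReflTransGen
              (fun u v => (u, v, none) ∈ E ∨ ∃ i, (u, v, some i) ∈ E ∧ x i = true) a b) →
          (M : ℝ) ^ (c * Real.log M) ≤ s := by
  open Pool.Agent.Lib.MP_5afa16_lc in
  refine ⟨gram.language, ⟨gram, rfl⟩, fun w w' h hw => gram_mono h hw, 1 / 10000, by norm_num,
    2 ^ 200, fun M hM s E a b hE => lower_asymptotic M s hM E a b fun x => ?_⟩
  rw [hE x, Pool.Agent.Lib.MP_5afa16_lc.Acc]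
  have : (fun u v => (u, v, none) ∈ E ∨ ∃ i, (u, v, some i) ∈ E ∧ x i = true) =
      fun u v => ∃ l, (u, v, l) ∈ E ∧ ∀ i ∈ l, x i = true := by
    funext u v
    simp [Option.exists]
  rw [this]

end Pool.Agent.Results.MP_5afa16_lc.MonotoneSeparation
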