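import Pool.Agent.Lib.MP_5afa16_lc.ColourGraph

namespace Pool.Agent.Results.MP_5afa16_lc.ThriftyNearPoly

/-- Tree evaluation on the binary tree with `h` levels (nodes `1, ..., 2 ^ h - 1` in heap order)
has nondeterministic thrifty `k`-way branching programs with at most
`k ^ 5 * exp (32 * (h + sqrt (h * log k * log (h + 1))))` non-final states. -/
theorem result (h k : ℕ) (hh : 1 ≤ h) (hk : 1 ≤ k) (R : Type) (g : Fin k → R) :
    ∃ (Q : Type) (_ : Fintype Q) (start : Q)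
      (query : Q → Set.Ico (2 ^ (h - 1) : ℕ) (2 ^ h) ⊕
        Set.Ico (1 : ℕ) (2 ^ (h - 1)) × Fin k × Fin k)
      (edge : Q → Fin k → Q ⊕ R → Prop),
      (Fintype.card Q : ℝ) ≤
        (k : ℝ) ^ 5 * Real.exp (32 * (h + √(h * Real.log k * Real.log (h + 1)))) ∧
      ∀ (x : Set.Ico (2 ^ (h - 1) : ℕ) (2 ^ h) ⊕
          Set.Ico (1 : ℕ) (2 ^ (h - 1)) × Fin k × Fin k → Fin k)
        (v : ℕ → Fin k) (step : Q ⊕ R → Q ⊕ R → Prop),
        (∀ i, v i.1 = x (Sum.inl i)) →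
        (∀ i, v i.1 = x (Sum.inr (i, v (2 * i.1), v (2 * i.1 + 1)))) →
        (∀ u u', step u u' ↔ ∃ q, u = Sum.inl q ∧ edge q (x (query q)) u') →
        (∀ r, Relation.ReflTransGen step (Sum.inl start) (Sum.inr r) ↔ r = g (v 1)) ∧
        ∀ q r i a b, Relation.ReflTransGen step (Sum.inl start) (Sum.inl q) →
          Relation.ReflTransGen step (Sum.inl q) (Sum.inr r) → query q = Sum.inr (i, a, b) →
          a = v (2 * i.1) ∧ b = v (2 * i.1 + 1) := by
  open Pool.Agent.Lib.MP_5afa16_lc.Thrifty (prog length_prog decode val_of) in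
  open Pool.Agent.Lib.MP_5afa16_lc.Colour in
  obtain ⟨d, hd, hdim⟩ := choose_dim h k hh hk
  obtain ⟨j, rfl⟩ : ∃ j, h = j + 1 := ⟨h - 1, by omega⟩
  obtain ⟨m, vec, hm, hvec, hb⟩ := exists_vec d k hd hk
  obtain ⟨q0, hq⟩ := main_graph vec _ g hvec m _ hb (wcol_bd hd m) j ⟨0, hk⟩
  have h2 : 2 ^ j < 2 ^ (j + 1) := Nat.pow_lt_pow_right (by norm_num) (by omega)
  let mk : ℕ → ℕ → Fin k → Fin k →
      Set.Ico (2 ^ j) (2 ^ (j + 1)) ⊕ Set.Ico 1 (2 ^ j) × Fin k × Fin k := fun t i a b =>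
    if h1 : t = 0 ∧ i ∈ Set.Ico (2 ^ j) (2 ^ (j + 1)) then Sum.inl ⟨i, h1.2⟩
    else if h3 : t ≠ 0 ∧ i ∈ Set.Ico 1 (2 ^ j) then Sum.inr (⟨i, h3.2⟩, a, b)
    else Sum.inl ⟨2 ^ j, le_rfl, h2⟩
  refine ⟨_, inferInstance, q0,
    fun q => mk (prog j 1 0 none)[q.1].j (prog j 1 0 none)[q.1].i q.2.2.1 q.2.2.2,
    Edge vec (wcol d m) _ (decode _ _ _) g, ?_, fun x v step h1 h3 hs => ?_⟩
  · have := size_bound (j + 1) d k m (prog j 1 0 none).length hh hd hk hm
      (by have := length_prog j 1 0 none; omega)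
    refine le_trans (le_trans (le_of_eq ?_) this) ?_
    · simp only [Fintype.card_prod, Fintype.card_fin, Fintype.card_fun, Fintype.card_bool,
        mul_assoc]
    · rw [mul_assoc, mul_assoc, ← mul_assoc (_ ^ (4 * (j + 1)))]
      gcongr
  · obtain rfl : step = Act vec (wcol d m) (fun t i a b => x (mk t i a b)) _ (decode _ _ _) g := by
      funext u u'
      exact propext (hs u u')
    obtain ⟨k1, k2⟩ := hq (fun t i a b => x (mk t i a b)) v (val_of _ j v (fun i a b l u => by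
        simp only [mk]
        rw [dif_pos ⟨trivial, l, u⟩]
        exact (h1 ⟨i, l, u⟩).symm) (fun t i l u => by
        simp only [mk]
        rw [dif_neg (by simp), dif_pos ⟨by simp, l, u⟩]
        exact (h3 ⟨i, l, u⟩).symm) j 0 1 (by simp) (by simp) (by simp))
    refine ⟨k1, fun q r i a b p1 p2 he => ?_⟩
    simp only [mk] at he
    split_ifs at he with c1 c2
    obtain ⟨rfl, he2⟩ := Prod.mk.inj (Sum.inr.inj he)
    obtain ⟨rfl, rfl⟩ := Prod.mk.inj he2
    exact k2 q r p1 p2 c2.1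

end Pool.Agent.Results.MP_5afa16_lc.ThriftyNearPoly
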